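import Pool.Agent.N783.PQ.Loc
import Pool.Agent.N262.PJ.Chi

/-!
# Project PQ: classes in the image of the Jacobian have trivial invariant (`S_HIM`) (helper271)
-/

set_option autoImplicit false
set_option linter.all false

open Polynomial Matrix

namespace Pool.Agent.N271.PQ

open Pool.Agent.N783.PQ
open Pool.Agent.N352.PJ (Mt Jm)
open Pool.Agent.N262.PJ (det_Jm mul_Jm_apply)

variable {F : Type} [Field F] {g : ℕ} {f h : F[X]}

/-- `tp` as a linear map -/
noncomputable def tpl (g : ℕ) (f : F[X]) : F[X] →ₗ[F] F := (lcoeff F (2 * g)) ∘ₗ (modByMonicHom f)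

theorem tpl_apply (P : F[X]) : tpl g f P = tp g f P := by
  unfold tpl tp
  rw [LinearMap.comp_apply, modByMonicHom_apply, lcoeff_apply]

theorem tp_congr (hf : f.Monic) {P Q : F[X]} (h : f ∣ P - Q) : tp g f P = tp g f Q := by
  unfold tp
  rw [modByMonic_eq_of_dvd_sub hf h]

theorem tp_pow (hf : f.Monic) (hd : f.natDegree = 2 * g + 1) (m : ℕ) (hm : m ≤ 2 * g) :
    tp g f (X ^ m) = if m = 2 * g then 1 else 0 := by
  unfold tp
  rw [(modByMonic_eq_self_iff hf).2, coeff_X_pow]
  · by_cases h : m = 2 * g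
    · rw [if_pos h, if_pos h.symm]
    · rw [if_neg h, if_neg (fun h' => h h'.symm)]
  · rw [degree_X_pow, degree_eq_natDegree hf.ne_zero, hd]
    exact_mod_cast (by omega : m < 2 * g + 1)

theorem red_sum (hf : f.Monic) (hd : f.natDegree = 2 * g + 1) (P : F[X]) :
    P %ₘ f = ∑ a : Fin (2 * g + 1), C ((P %ₘ f).coeff a) * X ^ (a : ℕ) := by
  have h1 := sum_modByMonic_coeff (p := P) hf (n := 2 * g + 1) (by
    rw [degree_eq_natDegree hf.ne_zero, hd])
  conv_lhs => rw [← h1]
  refine Finset.sum_congr rfl fun a _ => ?_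
  rw [C_mul_X_pow_eq_monomial]

/-- the vector of the coefficients of the remainder -/
noncomputable def vc (g : ℕ) (f P : F[X]) : Fin (2 * g + 1) → F := fun a => (P %ₘ f).coeff a

theorem gram (hf : f.Monic) (hd : f.natDegree = 2 * g + 1) (P Q : F[X]) :
    vc g f P ⬝ᵥ (Gm g f h *ᵥ vc g f Q) = tp g f (h * P * Q) := by
  have h1 : tp g f (h * P * Q) = tp g f (h * (P %ₘ f) * (Q %ₘ f)) := by
    apply tp_congr hf
    have e1 := modByMonic_add_div P f
    have e2 := modByMonic_add_div Q f
    refine ⟨h * (P /ₘ f) * (Q %ₘ f) + h * P * (Q /ₘ f), ?_⟩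
    linear_combination (-h * (Q %ₘ f)) * e1 + (-h * P) * e2
  have h2 : h * (P %ₘ f) * (Q %ₘ f) =
      ∑ a : Fin (2 * g + 1), ∑ b : Fin (2 * g + 1),
        (vc g f P a * vc g f Q b) • (h * X ^ ((a : ℕ) + b)) := by
    conv_lhs => rw [red_sum hf hd P, red_sum hf hd Q]
    rw [mul_assoc, Finset.sum_mul_sum, Finset.mul_sum]
    refine Finset.sum_congr rfl fun a _ => ?_
    rw [Finset.mul_sum]
    refine Finset.sum_congr rfl fun b _ => ?_
    unfold vc
    rw [smul_eq_C_mul, C_mul, pow_add]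
    ring
  rw [h1, h2, ← tpl_apply, map_sum]
  unfold dotProduct
  refine Finset.sum_congr rfl fun a _ => ?_
  rw [map_sum, Matrix.mulVec, dotProduct, Finset.mul_sum]
  refine Finset.sum_congr rfl fun b _ => ?_
  rw [map_smul, tpl_apply, smul_eq_mul]
  unfold Gm
  rw [Matrix.of_apply]
  ring

/-- the basis `1, x, …, x ^ (2 g)` -/
noncomputable def bs (hf : f.Monic) (hd : f.natDegree = 2 * g + 1) :
    Module.Basis (Fin (2 * g + 1)) F (AdjoinRoot f) :=
  (AdjoinRoot.powerBasisAux' hf).reindex (finCongr hd)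

theorem bs_repr (hf : f.Monic) (hd : f.natDegree = 2 * g + 1) (P : F[X]) (i : Fin (2 * g + 1)) :
    (bs hf hd).repr (AdjoinRoot.mk f P) i = (P %ₘ f).coeff i := by
  unfold bs
  rw [Module.Basis.repr_reindex_apply,
    AdjoinRoot.powerBasisAux'_repr_apply_to_fun, AdjoinRoot.modByMonicHom_mk]
  rfl

theorem bs_apply (hf : f.Monic) (hd : f.natDegree = 2 * g + 1) (i : Fin (2 * g + 1)) :
    bs hf hd i = AdjoinRoot.mk f (X ^ (i : ℕ)) := by
  apply (bs hf hd).repr.injective
  ext j
  rw [bs_repr, Module.Basis.repr_self, Finsupp.single_apply, (modByMonic_eq_self_iff hf).2,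
    coeff_X_pow]
  · by_cases h : i = j
    · rw [if_pos h, if_pos (by rw [h])]
    · rw [if_neg h, if_neg (fun h' => h (Fin.ext h'.symm))]
  · rw [degree_X_pow, degree_eq_natDegree hf.ne_zero, hd]
    exact_mod_cast i.2

/-- the Gram determinant -/
theorem det_Gm (hf : f.Monic) (hd : f.natDegree = 2 * g + 1) :
    (Gm g f h).det = (-1) ^ g * Algebra.norm F (AdjoinRoot.mk f h) := by
  set N : Mt g F := Algebra.leftMulMatrix (bs hf hd) (AdjoinRoot.mk f h) with hN
  set H : Mt g F := Matrix.of fun c b => tp g f (X ^ ((c : ℕ) + b)) with hH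
  have hNa : ∀ l i : Fin (2 * g + 1), N l i = ((h * X ^ (i : ℕ)) %ₘ f).coeff l := by
    intro l i
    rw [hN, Algebra.leftMulMatrix_eq_repr_mul, bs_apply, ← map_mul, bs_repr]
  have h1 : Gm g f h = Nᵀ * H := by
    ext i j
    rw [Matrix.mul_apply]
    unfold Gm
    rw [Matrix.of_apply]
    have e1 : tp g f (h * X ^ ((i : ℕ) + j)) = tp g f (((h * X ^ (i : ℕ)) %ₘ f) * X ^ (j : ℕ)) := by
      apply tp_congr hf
      have e2 := modByMonic_add_div (h * X ^ (i : ℕ)) f
      refine ⟨((h * X ^ (i : ℕ)) /ₘ f) * X ^ (j : ℕ), ?_⟩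
      rw [pow_add]
      linear_combination (-X ^ (j : ℕ)) * e2
    have e3 : ((h * X ^ (i : ℕ)) %ₘ f) * X ^ (j : ℕ) =
        ∑ l : Fin (2 * g + 1), (N l i) • (X ^ ((l : ℕ) + j) : F[X]) := by
      conv_lhs => rw [red_sum hf hd (h * X ^ (i : ℕ))]
      rw [Finset.sum_mul]
      refine Finset.sum_congr rfl fun l _ => ?_
      rw [hNa, smul_eq_C_mul, pow_add]
      ring
    rw [e1, e3, ← tpl_apply, map_sum]
    refine Finset.sum_congr rfl fun l _ => ?_
    rw [map_smul, tpl_apply, smul_eq_mul, Matrix.transpose_apply, hH, Matrix.of_apply]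
  have hHJ : (H * Jm g F).det = 1 := by
    rw [Matrix.det_of_lowerTriangular]
    · apply Finset.prod_eq_one
      intro i _
      rw [mul_Jm_apply, hH, Matrix.of_apply, Fin.val_rev, tp_pow hf hd]
      · rw [if_pos (by omega)]
      · omega
    · intro i j hij
      have hij' : (i : ℕ) < j := hij
      rw [mul_Jm_apply, hH, Matrix.of_apply, Fin.val_rev, tp_pow hf hd]
      · rw [if_neg (by omega)]
      · omega
  have hHd : H.det = (-1) ^ g := by
    rw [Matrix.det_mul, det_Jm] at hHJ
    have : H.det * ((-1) ^ g * (-1) ^ g) = (-1) ^ g := by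
      rw [← mul_assoc, hHJ, one_mul]
    rwa [← mul_pow, neg_one_mul, neg_neg, one_pow, mul_one] at this
  rw [h1, Matrix.det_mul, Matrix.det_transpose, hHd, hN, ← Algebra.norm_eq_matrix_det]
  ring

theorem him (h1 : S_CANT) (h2 : S_SPL) (h3 : S_HSP) : S_HIM := by
  intro F _ _ g f h hf hd hcop hsq hloc
  obtain ⟨u, v, s, hu, huf, huv, hs⟩ := h1 F g f h hf hd hloc
  obtain ⟨z, hz1, hz2⟩ := h2 F g f u v hf hd hu huf huv
  obtain ⟨u', hu'⟩ : ∃ u', u' = (-1) ^ u.natDegree * u := ⟨_, rfl⟩
  rw [← hu'] at hs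
  have hz1' : ∀ i j, tp g f (u' * z i * z j) = 0 := by
    intro i j
    rw [hu']
    exact hz1 i j
  have huf' : IsCoprime u' f := by
    rw [hu']
    apply IsCoprime.mul_left _ huf
    refine ⟨(-1) ^ u.natDegree, 0, ?_⟩
    rw [← mul_pow, neg_one_mul, neg_neg, one_pow, zero_mul, add_zero]
  obtain ⟨w, hw⟩ := hs
  -- `s` is prime to `f`
  have hsf : IsCoprime s f := by
    have e1 : IsCoprime (h * u') f := hcop.mul_left huf'
    have e2 : s ^ 2 = h * u' + f * (-w) := by linear_combination -hw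
    have e3 : IsCoprime (s ^ 2) f := by
      rw [e2]
      exact e1.add_mul_left_left (-w)
    exact (IsCoprime.pow_left_iff two_pos).1 e3
  obtain ⟨t, b, htb⟩ := hsf
  -- the unit
  have htf : IsCoprime t f := ⟨s, b, by linear_combination htb⟩
  have hnorm : (Gm g f h).det ≠ 0 := by
    rw [det_Gm hf hd]
    apply mul_ne_zero (pow_ne_zero _ (neg_ne_zero.2 one_ne_zero))
    obtain ⟨a, c, hac⟩ := hcop
    have e1 : AdjoinRoot.mk f a * AdjoinRoot.mk f h = 1 := by
      rw [← map_mul, ← map_one (AdjoinRoot.mk f), AdjoinRoot.mk_eq_mk]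
      exact ⟨-c, by linear_combination hac⟩
    have e2 : Algebra.norm F (AdjoinRoot.mk f a) * Algebra.norm F (AdjoinRoot.mk f h) = 1 := by
      rw [← map_mul, e1, map_one]
    exact right_ne_zero_of_mul_eq_one e2
  have hsym : (Gm g f h).IsSymm := by
    ext i j
    unfold Gm
    rw [Matrix.transpose_apply, Matrix.of_apply, Matrix.of_apply, add_comm (j : ℕ)]
  have hsq' : IsSquare ((-1) ^ g * (Gm g f h).det) := by
    rw [det_Gm hf hd, ← mul_assoc, ← mul_pow, neg_one_mul, neg_neg, one_pow, one_mul]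
    exact hsq
  have hlag : ∃ z : Fin g → Fin (2 * g + 1) → F, LinearIndependent F z ∧
      ∀ i j, z i ⬝ᵥ (Gm g f h *ᵥ z j) = 0 := by
    refine ⟨fun i => vc g f (z i * (u' * t)), ?_, ?_⟩
    · rw [Fintype.linearIndependent_iff]
      intro c hc i
      have e1 : (∑ i, C (c i) * (z i * (u' * t))) %ₘ f = 0 := by
        have e0 : ∀ P : F[X], P %ₘ f = modByMonicHom f P := fun P => rfl
        rw [e0, map_sum]
        have e4 : ∀ i, modByMonicHom f (C (c i) * (z i * (u' * t))) =
            c i • ((z i * (u' * t)) %ₘ f) := by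
          intro i
          rw [← smul_eq_C_mul, map_smul]
          rfl
        rw [Finset.sum_congr rfl fun i _ => e4 i]
        ext m
        rw [finset_sum_coeff, coeff_zero]
        by_cases hm : m < 2 * g + 1
        · have e5 := congrFun hc ⟨m, hm⟩
          rw [Finset.sum_apply] at e5
          rw [Pi.zero_apply] at e5
          rw [← e5]
          refine Finset.sum_congr rfl fun i _ => ?_
          rw [coeff_smul, Pi.smul_apply]
          rfl
        · apply Finset.sum_eq_zero
          intro i _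
          rw [coeff_smul]
          have e6 : ((z i * (u' * t)) %ₘ f).coeff m = 0 := by
            apply coeff_eq_zero_of_degree_lt
            refine lt_of_lt_of_le (degree_modByMonic_lt _ hf) ?_
            rw [degree_eq_natDegree hf.ne_zero, hd]
            exact_mod_cast (by omega : 2 * g + 1 ≤ m)
          rw [e6, smul_zero]
      have e2 : f ∣ (∑ i, C (c i) * z i) * (u' * t) := by
        rw [← modByMonic_eq_zero_iff_dvd hf, Finset.sum_mul, ← e1]
        congr 1
        refine Finset.sum_congr rfl fun i _ => ?_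
        ring
      have e3 : IsCoprime f (u' * t) := (huf'.mul_left htf).symm
      have e4 := hz2 c (e3.dvd_of_dvd_mul_right e2)
      rw [e4, Pi.zero_apply]
    · intro i j
      rw [gram hf hd, ← hz1' i j]
      apply tp_congr hf
      -- `h u' ^ 2 t ^ 2 z z' = u' z z'` modulo `f`
      refine ⟨u' * z i * z j * (w * t ^ 2 - b * (t * s + 1)), ?_⟩
      linear_combination (u' * z i * z j * t ^ 2) * hw + (u' * z i * z j * (t * s + 1)) * htb
  obtain ⟨T, hT⟩ := h3 F g (Gm g f h) hsym hsq' hnorm hlag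
  refine ⟨sg g, T, ?_, hT, ?_⟩
  · intro i
    unfold sg
    split_ifs
    · exact pow_ne_zero _ (neg_ne_zero.2 one_ne_zero)
    · exact one_ne_zero
  · rw [one_mul]

end Pool.Agent.N271.PQ
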